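import Pool.Agent.H17.VS.TargetsB

/-! Row IPV of the board `vs_modules` (MP_70ba79_ag). -/

set_option autoImplicit false

namespace Pool.Agent.H33.VS

open MvPolynomial SC Pool.Agent.H27.LV Pool.Agent.H17.VG Pool.Agent.H17.CI Pool.Agent.H17.VS

private lemma eval_lin {K : Type} [Field K] {n : ℕ} (ξ x : Fin (n + 1) → K) :
    eval x (lin ξ) = ∑ i, ξ i * x i := by
  simp [lin]

/-- one component -/
private lemma single_eq {K : Type} [Field K] {n : ℕ} {ι : Type} [DecidableEq ι] {e : ι → ℕ}
    (i : ι) (ξ : Fin (n + 1) → K) {Q : MvPolynomial (Fin (n + 1)) K}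
    (hQ : Q.IsHomogeneous (e i)) :
    ∃ q : (Σ i, Mon (n + 1) (e i)) → K,
      (Pi.single i (lin ξ * Q) : Tup ι K n) = fun j => lin ξ * frmT q j := by
  refine ⟨fun p => if p.1 = i then coeff (fs p.2.1) Q else 0, ?_⟩
  funext j
  by_cases h : j = i
  · subst h
    rw [Pi.single_eq_same]
    congr 1
    unfold frmT
    simp only [if_true]
    exact (frm_coeff hQ).symm
  · rw [Pi.single_eq_of_ne h]
    unfold frmT
    simp only [if_neg h]
    simp [frm]

theorem pf_IPV (hSM : T_SMV) (hIP : T_IP) : T_IPV := by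
  intro R K _ _ _ _ n ι _ e F D Z x hS hP
  set W : Submodule K (Tup ι K n) := Submodule.span K {G | ∃ (ξ : Fin (n + 1) → K)
    (q : (Σ i, Mon (n + 1) (e i)) → K), ∑ i, ξ i * x i = 0 ∧ G = fun i => lin ξ * frmT q i}
    with hW
  have hsm := fun (θ : Derivation R K K) (l : ι → K) (i : ι) =>
    (hSM R K n ι e F θ θ l l 0 0 x).2.2 i
  apply le_antisymm
  · refine Submodule.span_le.2 ?_
    rintro w ⟨θ, l, hG, rfl⟩
    refine ⟨⟨θ, rfl⟩, ?_⟩
    intro i hi
    have h0 : eval x (F i) = 0 := (hP.on i).2 hi
    have h1 := hsm θ l i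
    have h2 : eval x (smb F θ l i) = 0 := by
      generalize smb F θ l = G at hG
      rw [hW] at hG
      induction hG using Submodule.span_induction with
      | mem G h =>
        obtain ⟨ξ, q, h1, rfl⟩ := h
        rw [map_mul, eval_lin, h1, zero_mul]
      | zero => simp
      | add G G' _ _ h h' => rw [Pi.add_apply, map_add, h, h', add_zero]
      | smul a G _ h => rw [Pi.smul_apply, smul_eval, h, mul_zero]
    rw [h0, h2, map_zero, mul_zero, sub_zero, zero_add] at h1
    exact h1.symm
  · rintro w ⟨⟨θ, rfl⟩, hw⟩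
    have hx : x ≠ 0 := by
      rintro rfl
      have := hP.one
      simp at this
    classical
    let l : ι → K := fun i => if i ∈ Z then 0 else -(eval x (cD θ (F i))) / eval x (F i)
    have hG : ∀ i, (smb F θ l i).IsHomogeneous (e i + 1) :=
      (hSM R K n ι e F θ θ l l 0 0 x).2.1 hS.homog
    have h2 : ∀ i, eval x (smb F θ l i) = 0 := by
      intro i
      by_cases hi : i ∈ Z
      · have h0 : eval x (F i) = 0 := (hP.on i).2 hi
        have h1 := hsm θ l i
        have h3 : ∑ j, θ (x j) * eval x (pderiv j (F i)) = 0 := hw i hi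
        rw [h0, h3, map_zero, mul_zero, sub_zero, add_zero] at h1
        exact h1.symm
      · have h0 : eval x (F i) ≠ 0 := fun h => hi ((hP.on i).1 h)
        unfold smb
        rw [map_add, map_mul, eval_C]
        simp only [l, if_neg hi]
        field_simp
        ring
    have h4 : ∀ i, (Pi.single i (smb F θ l i) : Tup ι K n) ∈ W := by
      intro i
      have h5 := hIP K n (e i) x hx (smb F θ l i) (hG i) (h2 i)
      have h6 : (smb F θ l i) ∈
          W.comap (LinearMap.single K (fun _ : ι => MvPolynomial (Fin (n + 1)) K) i) := by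
        refine Submodule.span_le.2 ?_ h5
        rintro G' ⟨ξ, Q, h7, h8, rfl⟩
        obtain ⟨q, hq⟩ := single_eq (ι := ι) (e := e) i ξ h8
        change (Pi.single i (lin ξ * Q) : Tup ι K n) ∈ W
        rw [hq]
        exact Submodule.subset_span ⟨ξ, q, h7, rfl⟩
      exact h6
    have h5 : smb F θ l ∈ W := by
      have h6 : smb F θ l = ∑ i, (Pi.single i (smb F θ l i) : Tup ι K n) :=
        (Finset.univ_sum_single _).symm
      rw [h6]
      exact Submodule.sum_mem _ fun i _ => h4 i
    exact Submodule.subset_span ⟨θ, l, h5, rfl⟩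

end Pool.Agent.H33.VS
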